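import Mathlib
import Pool.Agent.HLead.CB.Defs

/-! Task COL: coloured back and forth for the rationals. -/

set_option autoImplicit false

namespace Pool.Agent.H123.CB

open Order

section
variable {A B : Type} (κ : ℚ → A) (κ' : ℚ → B) (C : A → B → Prop)

/-- finite coloured partial isomorphisms -/
def Good (f : Finset (ℚ × ℚ)) : Prop :=
  (∀ p ∈ f, ∀ q ∈ f, cmp p.1 q.1 = cmp p.2 q.2) ∧ ∀ p ∈ f, C (κ p.1) (κ' p.2)

variable {κ κ' C}

theorem ext_left (h : ∀ q a b : ℚ, a < b → ∃ q', a < q' ∧ q' < b ∧ C (κ q) (κ' q'))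
    (f : Finset (ℚ × ℚ)) (hf : Good κ κ' C f) (a : ℚ) :
    ∃ g, Good κ κ' C g ∧ f ⊆ g ∧ ∃ b, (a, b) ∈ g := by
  classical
  by_cases h0 : ∃ b, (a, b) ∈ f
  · exact ⟨f, hf, subset_rfl, h0⟩
  have key : ∀ x ∈ {p ∈ f | p.fst < a}.image Prod.snd,
      ∀ y ∈ {p ∈ f | a < p.fst}.image Prod.snd, x < y := by
    intro x hx y hy
    rw [Finset.mem_image] at hx hy
    rcases hx with ⟨p, hp1, rfl⟩
    rcases hy with ⟨q, hq1, rfl⟩
    rw [Finset.mem_filter] at hp1 hq1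
    rw [← lt_iff_lt_of_cmp_eq_cmp (hf.1 _ hp1.1 _ hq1.1)]
    exact lt_trans hp1.right hq1.right
  obtain ⟨m, hm1, hm2⟩ := exists_between_finsets _ _ key
  have key2 : ∀ x ∈ insert m ({p ∈ f | p.fst < a}.image Prod.snd),
      ∀ y ∈ {p ∈ f | a < p.fst}.image Prod.snd, x < y := by
    intro x hx y hy
    rcases Finset.mem_insert.1 hx with rfl | hx
    · exact hm2 y hy
    · exact key x hx y hy
  obtain ⟨m', hm1', hm2'⟩ := exists_between_finsets _ _ key2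
  obtain ⟨b, hb1, hb2, hb3⟩ := h a m m' (hm1' m (Finset.mem_insert_self _ _))
  have hcmp : ∀ p ∈ f, cmp p.1 a = cmp p.2 b := by
    rintro ⟨p1, p2⟩ hp
    have hne : p1 ≠ a := fun he ↦ h0 ⟨p2, he ▸ hp⟩
    rcases lt_or_gt_of_ne hne with hl | hr
    · have : p1 < a ∧ p2 < b :=
        ⟨hl, lt_trans (hm1 _ (Finset.mem_image.mpr
          ⟨(p1, p2), Finset.mem_filter.mpr ⟨hp, hl⟩, rfl⟩)) hb1⟩
      rw [← cmp_eq_lt_iff, ← cmp_eq_lt_iff] at this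
      exact this.1.trans this.2.symm
    · have : a < p1 ∧ b < p2 :=
        ⟨hr, lt_trans hb2 (hm2' _ (Finset.mem_image.mpr
          ⟨(p1, p2), Finset.mem_filter.mpr ⟨hp, hr⟩, rfl⟩))⟩
      rw [← cmp_eq_gt_iff, ← cmp_eq_gt_iff] at this
      exact this.1.trans this.2.symm
  refine ⟨insert (a, b) f, ⟨fun p hp q hq ↦ ?_, fun p hp ↦ ?_⟩, Finset.subset_insert _ _,
    b, Finset.mem_insert_self _ _⟩
  · rw [Finset.mem_insert] at hp hq
    rcases hp with (rfl | pf) <;> rcases hq with (rfl | qf)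
    · simp only [cmp_self_eq_eq]
    · rw [cmp_eq_cmp_symm]
      exact hcmp _ qf
    · exact hcmp _ pf
    · exact hf.1 _ pf _ qf
  · rcases Finset.mem_insert.1 hp with rfl | hp
    · exact hb3
    · exact hf.2 p hp

theorem Good.swap {f : Finset (ℚ × ℚ)} (hf : Good κ κ' C f) :
    Good κ' κ (fun b a => C a b) (f.image Prod.swap) := by
  refine ⟨fun p hp q hq ↦ ?_, fun p hp ↦ ?_⟩
  · obtain ⟨p', hp', rfl⟩ := Finset.mem_image.1 hp
    obtain ⟨q', hq', rfl⟩ := Finset.mem_image.1 hq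
    exact (hf.1 p' hp' q' hq').symm
  · obtain ⟨p', hp', rfl⟩ := Finset.mem_image.1 hp
    exact hf.2 p' hp'

theorem ext_right (h : ∀ q' a b : ℚ, a < b → ∃ q, a < q ∧ q < b ∧ C (κ q) (κ' q'))
    (f : Finset (ℚ × ℚ)) (hf : Good κ κ' C f) (b : ℚ) :
    ∃ g, Good κ κ' C g ∧ f ⊆ g ∧ ∃ a, (a, b) ∈ g := by
  classical
  obtain ⟨g, hg, hfg, a, ha⟩ := ext_left (κ := κ') (κ' := κ) (C := fun b a => C a b) h
    (f.image Prod.swap) hf.swap b
  refine ⟨g.image Prod.swap, hg.swap, fun p hp => ?_, a, ?_⟩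
  · exact Finset.mem_image.2 ⟨p.swap, hfg (Finset.mem_image.2 ⟨p, hp, rfl⟩), Prod.swap_swap p⟩
  · exact Finset.mem_image.2 ⟨(b, a), ha, rfl⟩

end

theorem t : Pool.Agent.HLead.CB.S_COL := by
  intro A B κ κ' C h1 h2
  classical
  let P := {f : Finset (ℚ × ℚ) // Good κ κ' C f}
  let _ : Preorder P := inferInstanceAs (Preorder {f : Finset (ℚ × ℚ) // Good κ κ' C f})
  let dl : ℚ → Cofinal P := fun a =>
    { carrier := {f | ∃ b, (a, b) ∈ f.1}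
      isCofinal := fun f => by
        obtain ⟨g, hg, hfg, b, hb⟩ := ext_left h1 f.1 f.2 a
        exact ⟨⟨g, hg⟩, ⟨b, hb⟩, hfg⟩ }
  let dr : ℚ → Cofinal P := fun b =>
    { carrier := {f | ∃ a, (a, b) ∈ f.1}
      isCofinal := fun f => by
        obtain ⟨g, hg, hfg, a, ha⟩ := ext_right h2 f.1 f.2 b
        exact ⟨⟨g, hg⟩, ⟨a, ha⟩, hfg⟩ }
  let p0 : P := ⟨∅, fun p hp => absurd hp (Finset.notMem_empty _),
    fun p hp => absurd hp (Finset.notMem_empty _)⟩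
  let to_cofinal : ℚ ⊕ ℚ → Cofinal P := fun p ↦ Sum.recOn p dl dr
  let I : Ideal P := idealOfCofinals p0 to_cofinal
  have hF : ∀ a : ℚ, ∃ b : ℚ, ∃ f ∈ I, (a, b) ∈ f.1 := fun a => by
    obtain ⟨f, ⟨b, hb⟩, hf⟩ := cofinal_meets_idealOfCofinals p0 to_cofinal (Sum.inl a)
    exact ⟨b, f, hf, hb⟩
  have hG : ∀ b : ℚ, ∃ a : ℚ, ∃ f ∈ I, (a, b) ∈ f.1 := fun b => by
    obtain ⟨f, ⟨a, ha⟩, hf⟩ := cofinal_meets_idealOfCofinals p0 to_cofinal (Sum.inr b)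
    exact ⟨a, f, hf, ha⟩
  choose F hF using hF
  choose G hG using hG
  refine ⟨OrderIso.ofCmpEqCmp F G fun a b ↦ ?_, fun q => ?_⟩
  · obtain ⟨f, hf, ha⟩ := hF a
    obtain ⟨g, hg, hb⟩ := hG b
    obtain ⟨m, _, fm, gm⟩ := I.directed _ hf _ hg
    exact m.2.1 (a, _) (fm ha) (_, b) (gm hb)
  · obtain ⟨f, hf, ha⟩ := hF q
    exact f.2.2 _ ha

end Pool.Agent.H123.CB
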